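import Pool.Agent.Helper68.QC.Top

set_option autoImplicit false

open Set Filter Topology Manifold Bundle MeasureTheory
open scoped ENNReal NNReal ContDiff

namespace Pool.Agent.Results.MP_3951d7_an.NotRemovable

/-- A smooth Riemannian manifold modelled on the finite dimensional space `E` (a smooth atlas, a
smooth Riemannian metric on the tangent bundle, and the distance is the infimum of the lengths of
the `C^1` paths), in terms of the classes of Mathlib. -/
structure RiemannianManifold (E : Type) [NormedAddCommGroup E] [NormedSpace ℝ E] where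
  /-- the underlying type -/
  carrier : Type
  /-- the distance -/
  [dist : EMetricSpace carrier]
  /-- the atlas -/
  [charts : ChartedSpace E carrier]
  [smooth : IsManifold 𝓘(ℝ, E) ∞ carrier]
  /-- the metric -/
  [metric : RiemannianBundle (fun x : carrier ↦ TangentSpace 𝓘(ℝ, E) x)]
  [smooth_metric : IsContMDiffRiemannianBundle 𝓘(ℝ, E) ∞ E
    (fun x : carrier ↦ TangentSpace 𝓘(ℝ, E) x)]
  [dist_eq : IsRiemannianManifold 𝓘(ℝ, E) carrier]

/-- A smooth Riemannian manifold of dimension `n`. -/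
def RiemMfd (n : ℕ) : Type 1 := RiemannianManifold (EuclideanSpace ℝ (Fin n))

/-- The set of points of a Riemannian manifold. -/
def RiemMfd.Pt {n : ℕ} (M : RiemMfd n) : Type := RiemannianManifold.carrier M

/-- The Riemannian distance. -/
instance RiemMfd.dist {n : ℕ} (M : RiemMfd n) : EMetricSpace M.Pt := RiemannianManifold.dist M

/-- The punctured ball `{x ∈ ℝⁿ : 0 < |x| < r}`. -/
def puncturedBall (n : ℕ) (r : ℝ) : Set (EuclideanSpace ℝ (Fin n)) := {x | 0 < ‖x‖ ∧ ‖x‖ < r}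

/-- The linear dilatation `H_f(x)`, the limsup as `t → 0+` of the quotient of the maximum by the
minimum over `|h| = t` of `d_M (f (x + h)) (f x)`. -/
noncomputable def dilatation {n : ℕ} {M : Type} [EMetricSpace M]
    (f : EuclideanSpace ℝ (Fin n) → M) (x : EuclideanSpace ℝ (Fin n)) : ℝ≥0∞ :=
  limsup (fun t : ℝ =>
    (⨆ h ∈ {h : EuclideanSpace ℝ (Fin n) | ‖h‖ = t}, edist (f (x + h)) (f x)) /
      (⨅ h ∈ {h : EuclideanSpace ℝ (Fin n) | ‖h‖ = t}, edist (f (x + h)) (f x))) (𝓝[>] 0)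

/-- The coefficient of quasiconformality `k(r)` of `f` in the annulus `r < |x| < r₀`. -/
noncomputable def coeffQC {n : ℕ} {M : Type} [EMetricSpace M]
    (f : EuclideanSpace ℝ (Fin n) → M) (r₀ r : ℝ) : ℝ≥0∞ :=
  ⨆ x ∈ {x : EuclideanSpace ℝ (Fin n) | r < ‖x‖ ∧ ‖x‖ < r₀}, dilatation f x

/-- `k(r) < ∞` for `r ∈ (0, r₀)` and the integral of `1 / (r k(r))` diverges at `0`. -/
def DivergenceCondition {n : ℕ} {M : Type} [EMetricSpace M]
    (f : EuclideanSpace ℝ (Fin n) → M) (r₀ : ℝ) : Prop :=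
  (∀ r ∈ Ioo 0 r₀, coeffQC f r₀ r < ⊤) ∧
    ∀ ε ∈ Ioo 0 r₀, ∫⁻ r in Ioo 0 ε, (ENNReal.ofReal r * coeffQC f r₀ r)⁻¹ = ⊤

/-- The singularity of `f` at `0` is removable: for some `ρ ∈ (0, r₀)`, the map `f` is injective on
`0 < |x| < ρ` and either (i) it extends there to a homeomorphism of the ball `|x| < ρ` onto an open
subset of `M`, or (ii) `f x` leaves every compact set of `M` as `x → 0`. -/
def IsRemovable {n : ℕ} {M : Type} [TopologicalSpace M]
    (f : EuclideanSpace ℝ (Fin n) → M) (r₀ : ℝ) : Prop :=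
  ∃ ρ ∈ Ioo 0 r₀, InjOn f (puncturedBall n ρ) ∧
    ((∃ e : OpenPartialHomeomorph (EuclideanSpace ℝ (Fin n)) M,
        e.source = Metric.ball 0 ρ ∧ EqOn e f (puncturedBall n ρ)) ∨
      Tendsto f (𝓝[≠] 0) (cocompact M))

open Pool.Agent.Helper68

lemma dilatation_le {x : EuclideanSpace ℝ (Fin 4)} (hx : 0 < ‖x‖) (hx1 : ‖x‖ ≤ 1) :
    @dilatation 4 QC.M QC.emM QC.f x ≤ 768 := by
  unfold dilatation
  apply limsup_le_of_le
  · isBoundedDefault
  have h1 : Ioo (0 : ℝ) (‖x‖ / 4) ∈ 𝓝[>] (0 : ℝ) := Ioo_mem_nhdsGT (by positivity)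
  filter_upwards [h1] with t ht
  set c : ℝ := (‖x‖⁻¹) ^ 3 / 4 * t with hc
  have key : ∀ h : EuclideanSpace ℝ (Fin 4), ‖h‖ = t →
      ENNReal.ofReal c ≤ @edist QC.M QC.emM.toEDist (QC.f (x + h)) (QC.f x) ∧
      @edist QC.M QC.emM.toEDist (QC.f (x + h)) (QC.f x) ≤ 768 * ENNReal.ofReal c := by
    intro h hh
    have e1 : ‖x - (x + h)‖ = t := by
      rw [← hh]; simp
    have h2 := QC.f_bounds (norm_pos_iff.1 hx) hx1 (y := x + h) (by rw [e1]; exact ht.2.le)
    rw [e1] at h2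
    have e2 : @edist QC.M QC.emM.toEDist (QC.f (x + h)) (QC.f x) =
        riemannianEDist (𝓡 4) (QC.f x) (QC.f (x + h)) :=
      riemannianEDist_comm
    rw [e2]
    refine ⟨h2.1, h2.2.trans_eq ?_⟩
    rw [show (768 : ℝ≥0∞) = ENNReal.ofReal 768 by norm_num, ← ENNReal.ofReal_mul (by norm_num)]
    congr 1
    rw [hc]; ring
  apply ENNReal.div_le_of_le_mul
  apply iSup₂_le
  intro h hh
  refine (key h hh).2.trans ?_
  gcongr
  exact le_iInf₂ fun h' hh' => (key h' hh').1

lemma lintegral_inv_eq_top {ε : ℝ} (hε : 0 < ε) (g : ℝ → ℝ≥0∞) (K : ℝ) (hK : 0 < K)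
    (hg : ∀ r ∈ Ioo 0 ε, g r ≤ ENNReal.ofReal K) :
    ∫⁻ r in Ioo 0 ε, (ENNReal.ofReal r * g r)⁻¹ = ⊤ := by
  by_contra hne
  have h1 : ∫⁻ r in Ioo 0 ε, ENNReal.ofReal (K⁻¹ * r⁻¹) ≤
      ∫⁻ r in Ioo 0 ε, (ENNReal.ofReal r * g r)⁻¹ := by
    apply setLIntegral_mono' measurableSet_Ioo
    intro r hr
    have hr0 : 0 < r := hr.1
    rw [← mul_inv, ENNReal.ofReal_inv_of_pos (by positivity), ENNReal.inv_le_inv, mul_comm,
      ENNReal.ofReal_mul hK.le]
    gcongr
    exact hg r hr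
  have h2 : ∫⁻ r in Ioo 0 ε, ENNReal.ofReal (K⁻¹ * r⁻¹) < ⊤ := h1.trans_lt (lt_top_iff_ne_top.2 hne)
  have h3 : IntegrableOn (fun r : ℝ => K⁻¹ * r⁻¹) (Ioo 0 ε) volume := by
    refine ⟨(by fun_prop : Measurable fun r : ℝ => K⁻¹ * r⁻¹).aestronglyMeasurable, ?_⟩
    rw [hasFiniteIntegral_iff_norm]
    refine lt_of_le_of_lt (le_of_eq ?_) h2
    apply setLIntegral_congr_fun measurableSet_Ioo
    intro r hr
    have hr0 : 0 < r := hr.1
    simp only
    rw [Real.norm_of_nonneg (by positivity)]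
  have h4 : IntegrableOn (fun r : ℝ => r⁻¹) (Ioo 0 ε) volume := by
    have h6 : IntegrableOn (fun r : ℝ => K * (K⁻¹ * r⁻¹)) (Ioo 0 ε) volume := h3.const_mul K
    have h7 : (fun r : ℝ => K * (K⁻¹ * r⁻¹)) = fun r : ℝ => r⁻¹ := by
      ext r
      rw [← mul_assoc, mul_inv_cancel₀ hK.ne', one_mul]
    rwa [h7] at h6
  have h5 : IntervalIntegrable (fun r : ℝ => r⁻¹) volume 0 ε := by
    rw [intervalIntegrable_iff_integrableOn_Ioo_of_le hε.le]
    exact h4
  rw [intervalIntegrable_inv_iff] at h5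
  rcases h5 with h5 | h5
  · exact hε.ne h5
  · exact h5 left_mem_uIcc

/-- There are a simply connected (complete) Riemannian manifold `M` of dimension `4` and a local
homeomorphism `f` of the punctured unit ball of `ℝ⁴` into `M`, with bounded linear dilatation (so
that the divergence condition holds), whose singularity at `0` is not removable; in fact
`f (-x) = f x`. -/
theorem result :
    ∃ (M : RiemMfd 4) (f : EuclideanSpace ℝ (Fin 4) → M.Pt),
      SimplyConnectedSpace M.Pt ∧ SecondCountableTopology M.Pt ∧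
      (∀ (x : M.Pt) (R : ℝ≥0), IsCompact (Metric.closedEBall x (R : ℝ≥0∞))) ∧
      IsLocalHomeomorphOn f (puncturedBall 4 1) ∧
      (∀ x ∈ puncturedBall 4 1, dilatation f x ≤ 768) ∧
      DivergenceCondition f 1 ∧
      (∀ x, f (-x) = f x) ∧
      ¬ IsRemovable f 1 := by
  have hk : ∀ r : ℝ, 0 < r → @coeffQC 4 QC.M QC.emM QC.f 1 r ≤ 768 := by
    intro r hr
    apply iSup₂_le
    intro x hx
    exact dilatation_le (hr.trans hx.1) hx.2.le
  refine ⟨@RiemannianManifold.mk (EuclideanSpace ℝ (Fin 4)) _ _ QC.M QC.emM QC.instCS QC.instIM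
    QC.instRB QC.instCMR QC.isRM, QC.f,
    QC.simplyConnected_M, ?_, ?_, ?_, ?_, ⟨?_, ?_⟩, ?_, ?_⟩
  · exact (inferInstance : SecondCountableTopology QC.MSet)
  · intro x R
    exact QC.isCompact_ball x R
  · exact QC.isLocalHomeomorphOn_f.mono (fun x hx => norm_pos_iff.1 hx.1)
  · intro x hx
    exact dilatation_le hx.1 hx.2.le
  · intro r hr
    exact (hk r hr.1).trans_lt (by norm_num)
  · intro ε hε
    apply lintegral_inv_eq_top hε.1 _ 768 (by norm_num)
    intro r hr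
    refine (hk r hr.1).trans_eq (by norm_num)
  · intro x
    exact QC.f_neg x
  · rintro ⟨ρ, hρ, hinj, -⟩
    set x : EuclideanSpace ℝ (Fin 4) := EuclideanSpace.single 0 (ρ / 2) with hx
    have hnx : ‖x‖ = ρ / 2 := by
      rw [hx, EuclideanSpace.norm_single, Real.norm_of_nonneg (by linarith [hρ.1])]
    have h1 : x ∈ puncturedBall 4 ρ := ⟨by rw [hnx]; linarith [hρ.1], by rw [hnx]; linarith [hρ.1]⟩
    have h2 : -x ∈ puncturedBall 4 ρ := by
      refine ⟨?_, ?_⟩ <;> rw [norm_neg]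
      · exact h1.1
      · exact h1.2
    have h3 : -x = x := hinj h2 h1 (QC.f_neg x)
    have h4 : x = 0 := by
      have : (2 : ℝ) • x = 0 := by
        rw [two_smul]
        nth_rewrite 1 [← h3]
        simp
      simpa using this
    rw [h4, norm_zero] at hnx
    linarith [hρ.1]

end Pool.Agent.Results.MP_3951d7_an.NotRemovable
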